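import Mathlib

open MeasureTheory Filter Set Real

namespace Pool.Agent.Results.MP_942486_an.NotConstant

/-- number of bits at level `k` -/
def d (k : ℕ) : ℕ := 2 ^ k

abbrev Pat (k : ℕ) := Fin (d k) → Fin 4

noncomputable def enc (k : ℕ) (σ : Pat k) : ℕ := (Fintype.equivFin (Pat k) σ : ℕ)

lemma enc_inj (k : ℕ) : Function.Injective (enc k) := by
  intro a b h
  exact (Fintype.equivFin (Pat k)).injective (Fin.ext h)

noncomputable def p (k : ℕ) (σ : Pat k) : ℕ := Nat.nth Nat.Prime (k + enc k σ)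

lemma p_prime (k : ℕ) (σ : Pat k) : (p k σ).Prime := Nat.prime_nth_prime _

lemma p_ge (k : ℕ) (σ : Pat k) : k ≤ p k σ := by
  have : k + enc k σ ≤ p k σ :=
    (Nat.nth_strictMono Nat.infinite_setOfPred_prime).le_apply (x := k + enc k σ)
  omega

lemma p_cop (k : ℕ) (σ τ : Pat k) (h : σ ≠ τ) : Nat.Coprime (p k σ) (p k τ) := by
  rw [Nat.coprime_primes (p_prime k σ) (p_prime k τ)]
  intro e
  have := Nat.nth_injective Nat.infinite_setOfPred_prime e
  exact h (enc_inj k (by omega))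

lemma exN (k : ℕ) (t : Fin (d k)) : ∃ N : ℕ, ∀ σ : Pat k, p k σ ∣ N + (σ t : ℕ) := by
  classical
  obtain ⟨N, hN⟩ := Nat.chineseRemainderOfFinset (fun σ : Pat k => (p k σ - 1) * (σ t : ℕ))
    (p k) Finset.univ (fun σ _ => (p_prime k σ).ne_zero)
    (fun σ _ τ _ h => p_cop k σ τ h)
  refine ⟨N, fun σ => ?_⟩
  have h1 := (hN σ (Finset.mem_univ _)).add_right (σ t : ℕ)
  have h2 : (p k σ - 1) * (σ t : ℕ) + (σ t : ℕ) = p k σ * (σ t : ℕ) := by
    have := (p_prime k σ).pos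
    obtain ⟨q, hq⟩ : ∃ q, p k σ = q + 1 := ⟨p k σ - 1, by omega⟩
    rw [hq]; simp; ring
  rw [h2] at h1
  exact (Nat.modEq_zero_iff_dvd).1 (h1.trans ((Nat.modEq_zero_iff_dvd).2 (dvd_mul_right _ _)))

noncomputable def N (k : ℕ) (t : Fin (d k)) : ℕ := (exN k t).choose

lemma N_spec (k : ℕ) (t : Fin (d k)) (σ : Pat k) : p k σ ∣ N k t + (σ t : ℕ) :=
  (exN k t).choose_spec σ

lemma N_inj (k : ℕ) : Function.Injective (N k) := by
  classical
  intro s t h
  by_contra hst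
  let σ : Pat k := fun u => if u = t then 1 else 0
  have h1 := N_spec k s σ
  have h2 := N_spec k t σ
  simp only [σ, if_neg hst, if_true] at h1 h2
  rw [h] at h1
  have h3 : p k σ ∣ 1 := by
    have := (Nat.dvd_add_right (show p k σ ∣ N k t by simpa using h1)).1 (by simpa using h2)
    exact this
  exact (p_prime k σ).one_lt.ne' (Nat.dvd_one.1 h3)

def S (k : ℕ) (σ : Pat k) : Set ℝ :=
  {x | ∀ t, cos (2 * π * ((N k t + (σ t : ℕ) : ℕ) : ℝ) * x) ≤ -1 / 2}

def A (n : ℕ) : Set ℝ := ⋃ k, ⋃ σ : Pat k, ⋃ (_ : p k σ = n), S k σ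

lemma S_meas (k : ℕ) (σ : Pat k) : MeasurableSet (S k σ) := by
  have : S k σ = ⋂ t, {x | cos (2 * π * ((N k t + (σ t : ℕ) : ℕ) : ℝ) * x) ≤ -1 / 2} := by
    ext x; simp [S]
  rw [this]
  exact MeasurableSet.iInter fun t => measurableSet_le (by fun_prop) (by fun_prop)

lemma A_meas (n : ℕ) : MeasurableSet (A n) :=
  MeasurableSet.iUnion fun k => MeasurableSet.iUnion fun σ => MeasurableSet.iUnion fun _ =>
    S_meas k σ

lemma S_per (k : ℕ) (σ : Pat k) (x : ℝ) : x + 1 / (p k σ : ℝ) ∈ S k σ ↔ x ∈ S k σ := by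
  unfold S
  simp only [mem_ofPred_eq]
  refine forall_congr' fun t => ?_
  obtain ⟨q, hq⟩ := N_spec k t σ
  have hp : (p k σ : ℝ) ≠ 0 := by exact_mod_cast (p_prime k σ).ne_zero
  have : 2 * π * ((N k t + (σ t : ℕ) : ℕ) : ℝ) * (x + 1 / (p k σ : ℝ))
      = 2 * π * ((N k t + (σ t : ℕ) : ℕ) : ℝ) * x + q * (2 * π) := by
    rw [hq]; push_cast; field_simp
  rw [this, cos_add_nat_mul_two_pi]

lemma A_per (n : ℕ) (x : ℝ) : x + 1 / (n : ℝ) ∈ A n ↔ x ∈ A n := by
  unfold A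
  simp only [mem_iUnion]
  refine exists_congr fun k => exists_congr fun σ => exists_congr fun h => ?_
  rw [← h]; exact S_per k σ x

noncomputable def f (n : ℕ) : ℝ → ℝ := (A n).indicator fun _ => 1

lemma four (θ : ℝ) : ∃ j : Fin 4, cos (θ + (j : ℕ) * (π / 2)) ≤ -7 / 10 := by
  have h := sin_sq_add_cos_sq θ
  by_cases h0 : cos θ ≤ -7 / 10
  · exact ⟨0, by simpa using h0⟩
  by_cases h1 : 7 / 10 ≤ sin θ
  · refine ⟨1, ?_⟩
    have : θ + ((1 : Fin 4) : ℕ) * (π / 2) = θ + π / 2 := by simp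
    rw [this, cos_add_pi_div_two]; linarith
  by_cases h2 : 7 / 10 ≤ cos θ
  · refine ⟨2, ?_⟩
    have : θ + ((2 : Fin 4) : ℕ) * (π / 2) = θ + π := by
      have : ((2 : Fin 4) : ℕ) = 2 := rfl
      rw [this]; push_cast; ring
    rw [this, cos_add_pi]; linarith
  refine ⟨3, ?_⟩
  have : θ + ((3 : Fin 4) : ℕ) * (π / 2) = (θ + π / 2) + π := by
    have : ((3 : Fin 4) : ℕ) = 3 := rfl
    rw [this]; push_cast; ring
  rw [this, cos_add_pi, cos_add_pi_div_two]
  push Not at h0 h1 h2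
  by_contra h3
  push Not at h3
  nlinarith

lemma small (j : Fin 4) (h : ℝ) (hh : |h| ≤ 1 / 100) : |2 * π * (j : ℕ) * h| ≤ 1 / 5 := by
  have hj : ((j : ℕ) : ℝ) ≤ 3 := by
    have := j.2
    exact_mod_cast (by omega : (j : ℕ) ≤ 3)
  have hj0 : (0 : ℝ) ≤ (j : ℕ) := Nat.cast_nonneg _
  have hp := pi_lt_d2
  have hp0 := pi_pos
  rw [abs_mul, abs_of_nonneg (by positivity : (0 : ℝ) ≤ 2 * π * (j : ℕ))]
  have h1 : 2 * π * (j : ℕ) ≤ 20 := by nlinarith
  have h2 := abs_nonneg h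
  nlinarith

lemma cover (x : ℝ) (hx : x ∈ Icc (6 / 25 : ℝ) (13 / 50)) (k : ℕ) : ∃ σ : Pat k, x ∈ S k σ := by
  choose j hj using four
  refine ⟨fun t => j (2 * π * (N k t : ℝ) * x), fun t => ?_⟩
  set θ := 2 * π * (N k t : ℝ) * x with hθ
  have h1 := hj θ
  have h2 := small (j θ) (x - 1 / 4) (by rw [abs_le]; constructor <;> linarith [hx.1, hx.2])
  have h3 := abs_cos_sub_cos_le (2 * π * ((N k t + (j θ : ℕ) : ℕ) : ℝ) * x)
    (θ + (j θ : ℕ) * (π / 2))
  have h4 : 2 * π * ((N k t + (j θ : ℕ) : ℕ) : ℝ) * x - (θ + (j θ : ℕ) * (π / 2))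
      = 2 * π * (j θ : ℕ) * (x - 1 / 4) := by
    push_cast; rw [hθ]; ring
  rw [h4] at h3
  have h5 := (abs_le.1 (h3.trans h2)).2
  linarith

noncomputable def G (k : ℕ) (x : ℝ) : ℝ :=
  ∑ s, ∑ t, cos (2 * π * ((N k s : ℝ) - N k t) * x)

lemma G_eq (k : ℕ) (x : ℝ) : G k x = (∑ s, cos (2 * π * (N k s : ℝ) * x)) ^ 2
    + (∑ s, sin (2 * π * (N k s : ℝ) * x)) ^ 2 := by
  rw [sq, sq, Finset.sum_mul_sum, Finset.sum_mul_sum, ← Finset.sum_add_distrib]
  refine Finset.sum_congr rfl fun s _ => ?_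
  rw [← Finset.sum_add_distrib]
  refine Finset.sum_congr rfl fun t _ => ?_
  rw [← cos_sub]; congr 1; ring

lemma int_cos (a b : ℕ) : ∫ x in (0 : ℝ)..1, cos (2 * π * ((a : ℝ) - b) * x)
    = if a = b then 1 else 0 := by
  split_ifs with h
  · subst h; simp
  · have hc : 2 * π * ((a : ℝ) - b) ≠ 0 := by
      have : (a : ℝ) - b ≠ 0 := sub_ne_zero.2 (by exact_mod_cast h)
      have := pi_pos
      positivity
    rw [intervalIntegral.integral_comp_mul_left (fun x => cos x) hc]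
    simp only [integral_cos, mul_zero, mul_one, sin_zero, sub_zero, smul_eq_mul]
    have : 2 * π * ((a : ℝ) - b) = ((2 * ((a : ℤ) - b) : ℤ) : ℝ) * π := by push_cast; ring
    rw [this, sin_int_mul_pi, mul_zero]

lemma int_G (k : ℕ) : ∫ x in (0 : ℝ)..1, G k x = d k := by
  classical
  unfold G
  rw [intervalIntegral.integral_finsetSum]
  · have : ∀ s : Fin (d k), ∫ x in (0 : ℝ)..1, ∑ t, cos (2 * π * ((N k s : ℝ) - N k t) * x)
        = 1 := by
      intro s
      rw [intervalIntegral.integral_finsetSum]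
      · simp only [int_cos, (N_inj k).eq_iff]
        simp
      · intro t _
        exact (by fun_prop : Continuous _).intervalIntegrable _ _
    simp [this]
  · intro s _
    exact (by fun_prop : Continuous _).intervalIntegrable _ _

def U (k : ℕ) : Set ℝ := {x | (d k : ℝ) ^ 2 / 16 ≤ G k x}

lemma U_meas (k : ℕ) : (volume.restrict (Ioc (0 : ℝ) 1)).real (U k) ≤ 16 * (1 / 2) ^ k := by
  have hc : Continuous (G k) := by unfold G; fun_prop
  have h := mul_meas_ge_le_integral_of_nonneg (μ := volume.restrict (Ioc (0 : ℝ) 1)) (f := G k)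
    (Eventually.of_forall fun x => by rw [G_eq]; positivity)
    (hc.intervalIntegrable 0 1).1 ((d k : ℝ) ^ 2 / 16)
  rw [← intervalIntegral.integral_of_le zero_le_one, int_G] at h
  have hd : (d k : ℝ) = 2 ^ k := by simp [d]
  have h2 : (0 : ℝ) < 2 ^ k := by positivity
  change (d k : ℝ) ^ 2 / 16 * (volume.restrict (Ioc (0 : ℝ) 1)).real (U k) ≤ _ at h
  rw [hd] at h
  rw [one_div, inv_pow, ← div_eq_mul_inv, le_div_iff₀ h2]
  nlinarith

lemma S_sub (k : ℕ) (σ : Pat k) (x : ℝ) (hx : x ∈ Ioc (0 : ℝ) (1 / 100)) (h : x ∈ S k σ) :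
    x ∈ U k := by
  have h1 : ∀ t, cos (2 * π * (N k t : ℝ) * x) ≤ -1 / 4 := by
    intro t
    have h2 := h t
    have h3 := small (σ t) x (by rw [abs_le]; constructor <;> linarith [hx.1, hx.2])
    have h4 := abs_cos_sub_cos_le (2 * π * ((N k t + (σ t : ℕ) : ℕ) : ℝ) * x)
      (2 * π * (N k t : ℝ) * x)
    have h5 : 2 * π * ((N k t + (σ t : ℕ) : ℕ) : ℝ) * x - (2 * π * (N k t : ℝ) * x)
        = 2 * π * (σ t : ℕ) * x := by push_cast; ring
    rw [h5] at h4
    have h6 := (abs_le.1 (h4.trans h3)).1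
    linarith
  have h2 : ∑ s, cos (2 * π * (N k s : ℝ) * x) ≤ (d k : ℝ) * (-1 / 4) := by
    have := Finset.sum_le_sum (s := Finset.univ) fun t _ => h1 t
    simpa using this
  show (d k : ℝ) ^ 2 / 16 ≤ G k x
  rw [G_eq]
  have h3 : (0 : ℝ) ≤ d k := Nat.cast_nonneg _
  nlinarith [sq_nonneg (∑ s, sin (2 * π * (N k s : ℝ) * x))]

lemma ae_fin : ∀ᵐ x ∂(volume.restrict (Ioc (0 : ℝ) 1)), {k | x ∈ U k}.Finite := by
  apply ae_finite_setOfPred_mem
  have h : ∀ k, (volume.restrict (Ioc (0 : ℝ) 1)) (U k)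
      ≤ ENNReal.ofReal (16 * (1 / 2) ^ k) := by
    intro k
    rw [← ofReal_measureReal (measure_ne_top _ _)]
    exact ENNReal.ofReal_le_ofReal (U_meas k)
  refine ne_top_of_le_ne_top ?_ (ENNReal.tsum_le_tsum h)
  rw [← ENNReal.ofReal_tsum_of_nonneg (fun k => by positivity)
    (summable_geometric_two.mul_left 16)]
  exact ENNReal.ofReal_ne_top

lemma f_le (n : ℕ) (x : ℝ) : 0 ≤ f n x ∧ f n x ≤ 1 := by
  unfold f
  by_cases h : x ∈ A n <;> simp [h]

lemma limsup_one (x : ℝ) (hx : x ∈ Icc (6 / 25 : ℝ) (13 / 50)) :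
    limsup (fun n => f n x) atTop = 1 := by
  apply le_antisymm
  · exact limsup_le_of_le (isCoboundedUnder_le_of_le atTop fun n => (f_le n x).1)
      (Eventually.of_forall fun n => (f_le n x).2)
  · refine le_limsup_of_frequently_le ?_ (isBoundedUnder_of ⟨1, fun n => (f_le n x).2⟩)
    rw [frequently_atTop]
    intro k
    obtain ⟨σ, hσ⟩ := cover x hx k
    refine ⟨p k σ, p_ge k σ, ?_⟩
    have : x ∈ A (p k σ) := by
      simp only [A, mem_iUnion]; exact ⟨k, σ, rfl, hσ⟩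
    simp [f, this]

lemma limsup_zero (x : ℝ) (hx : x ∈ Ioc (0 : ℝ) (1 / 100)) (hfin : {k | x ∈ U k}.Finite) :
    limsup (fun n => f n x) atTop = 0 := by
  have h1 : {n | x ∈ A n}.Finite := by
    refine (hfin.biUnion fun k _ => finite_range (p k)).subset fun n hn => ?_
    simp only [A, mem_ofPred_eq, mem_iUnion] at hn
    obtain ⟨k, σ, e, h⟩ := hn
    simp only [mem_iUnion, mem_ofPred_eq]
    exact ⟨k, S_sub k σ x hx h, σ, e⟩
  have h2 : ∀ᶠ n in atTop, f n x = 0 := by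
    rw [← Nat.cofinite_eq_atTop]
    filter_upwards [h1.compl_mem_cofinite] with n hn
    have : x ∉ A n := hn
    simp [f, this]
  rw [limsup_congr h2, limsup_const]

theorem result : ∃ F : ℕ → ℝ → ℝ, (∀ n, Measurable (F n)) ∧ (∀ n x, |F n x| ≤ 1) ∧
    (∀ n : ℕ, 1 ≤ n → ∀ x, F n (x + 1 / (n : ℝ)) = F n x) ∧
    ¬ ∃ c : ℝ, ∀ᵐ x : ℝ, limsup (fun n => F n x) atTop = c := by
  refine ⟨f, fun n => measurable_const.indicator (A_meas n), fun n x => ?_, fun n _ x => ?_, ?_⟩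
  · rw [abs_of_nonneg (f_le n x).1]; exact (f_le n x).2
  · unfold f
    by_cases h : x ∈ A n
    · rw [indicator_of_mem h, indicator_of_mem ((A_per n x).2 h)]
    · rw [indicator_of_notMem h, indicator_of_notMem (fun h' => h ((A_per n x).1 h'))]
  · rintro ⟨c, hc⟩
    have h1 : c = 1 := by
      have : ∃ᵐ x : ℝ, x ∈ Icc (6 / 25 : ℝ) (13 / 50) := by
        rw [frequently_ae_mem_iff]; simp; norm_num
      obtain ⟨x, hx, hx'⟩ := (this.and_eventually hc).exists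
      rw [← hx', limsup_one x hx]
    have h0 : c = 0 := by
      have h2 := (ae_restrict_iff' measurableSet_Ioc).1 ae_fin
      have : ∃ᵐ x : ℝ, x ∈ Ioc (0 : ℝ) (1 / 100) := by
        rw [frequently_ae_mem_iff]; simp
      obtain ⟨x, hx, hx', hx''⟩ := (this.and_eventually (hc.and h2)).exists
      rw [← hx', limsup_zero x hx (hx'' ⟨hx.1, by linarith [hx.2]⟩)]
    rw [h1] at h0; exact one_ne_zero h0

end Pool.Agent.Results.MP_942486_an.NotConstant
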